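import Pool.Agent.Work.MP_25cd3b_gt.KB.Bridge

/-!
# Marked length spectra and Kaehler classes: rigidity and global stability

Let `M = R^n / G` be a closed manifold, `g1` and `g2` smooth metrics of `M`, `g1` of negative
curvature (or, more generally, without conjugate points and with Gromov hyperbolic universal
covering), `J` an almost complex structure for which `g1` is almost Kaehler, and `F` a smooth map
of `M` to itself which is homotopic to the identity. If the form `g1 (J u, v)` minus the form
`(F*g2) (J u, v)` is cohomologous to a semipositive form (for instance if both metrics are
Kaehler and in the same Kaehler class, `F` the identity) and if no closed geodesic of `g2` is shorter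
than `κ` times the closed geodesic of `g1` in the same free homotopy class, then the mean of
`(|v|_(F*g2) - |v|_g1)^2` over the unit ball bundle of `g1` is at most `2 (1 - κ)` times the mean of
`|v|_g1^2`. In particular `κ = 1` implies `F*g2 = g1`.

Outline of the proof. (1) If a deck transformation `f` moves two points `c(s), c(s+R)` of a geodesic
of the universal covering to within distance one of `c(t), c(t+R)` then its translation length is at
least `t - s - C` (four point condition). (2) Cut a long geodesic at the last returns to finitely
many cells of initial vectors modulo `G`; so its length with respect to `g2` is at least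
`κ T - C'`. (3) Average over the geodesic flow (Liouville). (4) The integral of `|v|_(F*g2)^2` over
the fibre is the trace of `F*g2` with respect to `g1`, and for a closed form `ω1` this trace is `n`
plus a divergence plus a nonpositive term. (5) Jacobi fields without conjugate points: the
exponential map is a diffeomorphism (Gauss lemma, lifting of paths), so geodesics of the universal
covering minimise; for negative curvature the absence of conjugate points and the four point
condition are proved by comparison of Jacobi fields.
-/

set_option autoImplicit false

namespace Pool.Agent.Results.MP_25cd3b_gt.KaehlerClass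

open MeasureTheory Set
open Pool.Agent.GM
open Pool.Agent.MLS (E ee)

/-- **Main theorem.** -/
theorem result (n : ℕ) (G : Type) [Group G] [MulAction G (E n)] (hG : Cocompact (E n) G)
    (g1 g2 h : Frm (E n)) (r1 : Riem g1) (r2 : Riem g2) (i1 : Inv G g1) (i2 : Inv G g2)
    (h1 : Adm g1) (κ : ℝ) (hκ : 0 ≤ κ) (hL : ∀ a : G, κ * L g1 a ≤ L g2 a)
    (J : E n → E n →L[ℝ] E n) (hJ : IsJ G J) (hK : Kah J g1)
    (F : E n → E n) (hF : IsMap G F g2 h) (hC : ClassLe G J h g1)
    (D : Set (E n)) (hD : IsFD G D) :
    bint ee g1 D (fun x v => (nrm h x v - nrm g1 x v) ^ 2) ≤
      2 * (1 - κ) * bint ee g1 D (fun x v => nrm g1 x v ^ 2) ∧ (κ = 1 → h = g1) :=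
  KB.thK n G hG g1 g2 h r1 r2 i1 i2 h1 κ hκ hL J hJ hK F hF hC D hD

end Pool.Agent.Results.MP_25cd3b_gt.KaehlerClass
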