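import Pool.Agent.Work.MP_25cd3b_gt.LX.All3
import Pool.Agent.Work.MP_25cd3b_gt.LX.Fin4

/-!
# The marked length spectrum determines the linearised Poincaré maps of the closed geodesics

Let `M = R^n / G` be a closed manifold and `g1`, `g2` smooth metrics of negative curvature with the
same marked length spectrum, and let `γ1`, `γ2` be closed geodesics of `g1`, `g2` in the same free
homotopy class `a`. Then the linearised Poincaré maps of `γ1` and `γ2` (acting on the normal Jacobi
fields) are conjugate by a linear isomorphism. So all Lyapunov exponents of all closed geodesics,
with their multiplicities, and the eigenvalues and Jordan blocks of the linearised Poincaré maps are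
determined by the marked length spectrum. There is no pinching or bunching assumption.

Outline of the proof. (1) For a metric of curvature at most `-κ^2`, Stewart's inequality gives a four
point inequality with an exponentially small error, and so the lengths of the closed geodesics of
the classes `p`, `q`, `p q` determine the cross differences of distances up to exponentially small
errors. If two metrics have the same marked length spectrum, then their distances differ by a
bounded amount and their cross differences agree at infinity. (2) Let `α`, `β` be geodesics which
are forward and backward asymptotic to `γ1`. The temporal displacement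
`τ_k(α, β) = lim d(α(-R), a^k β(R)) - 2 R - k l` is a limit of cross differences, so it is the same
for the corresponding geodesics of `g2`. (3) With a hypersurface `Σ` orthogonal to `γ1` and the
generating function `L(x, z) = d(x, a z) - l` on `Σ x Σ` (positive second derivative at the closed
geodesic), geodesics near `γ1` become chains which minimise `∑ L(u_j, u_(j+1))`; `α`, `β` become
infinite chains `p`, `v`. If both decay like `e^(-r j)`, then `τ_k(α, β)` is the mixed second
difference of the minimal action of chains of length `k` from `p_0` to `v_0`, up to
`O(k e^(-2 r k))`, and this is `-Ω(R_p, T^(-k+1) Q_v) + O(e^(-t k))` for every `t < 2 r` which is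
not an exponent: `T` is the linearised Poincaré map, `Ω` the symplectic form, and `R_p`, `Q_v` are
the asymptotic coordinates of `p` and `v` in the stable and unstable spaces of the exponents in
`[r, t)`. (4) By induction over levels `r < t < 2 r` the metrics `g1` and `g2` have the same geodesics
`α`, `β` with decay of rate `r`: those of rate `t` are the ones whose coordinates vanish, that is
whose temporal displacements decay like `e^(-t k)`. At each level the coordinates `Q_v` span the
space, the functionals `Ω(R_p, ·)` separate its points (Perron's method gives enough fast chains,
and `Ω` is nondegenerate), and such a realisation of the numbers `τ_k` modulo `O(e^(-t k))` is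
unique up to a linear conjugacy.
-/

set_option autoImplicit false

namespace Pool.Agent.Results.MP_25cd3b_gt.PoincareMaps

open Pool.Agent.GM
open Pool.Agent.MLS (E)

/-- **Main theorem.** -/
theorem result (n : ℕ) (G : Type) [Group G] [MulAction G (E n)] (hG : Cocompact (E n) G)
    (g1 g2 : Frm (E n)) (r1 : Riem g1) (r2 : Riem g2) (i1 : Inv G g1) (i2 : Inv G g2)
    (n1 : NegCurv g1) (n2 : NegCurv g2) (hL : ∀ b : G, L g1 b = L g2 b) (a : G)
    (γ1 : ClGeo g1 a) (γ2 : ClGeo g2 a) : PoinConj γ1 γ2 :=
  LX.fin4 LX.x_WVf LX.x_FPer LX.x_CvG LX.x_RLen n G hG g1 g2 r1 r2 i1 i2 n1 n2 hL a γ1 γ2

end Pool.Agent.Results.MP_25cd3b_gt.PoincareMaps
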