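import Pool.Agent.Work.MP_25cd3b_gt.KB.Bridge

/-!
# Marked length spectra and convexity of the volume

Let `M = R^n / G` be a closed manifold, `g1` and `g2` smooth metrics of `M` such that the volume of
`(1 - t) g1 + t g2` is a convex function of `t ∈ [0, 1]`. Let `g1` be of negative curvature (or,
more generally, without conjugate points and with Gromov hyperbolic universal covering). If the
marked length spectra satisfy `L_g1 ≤ L_g2` then `vol g1 ≤ vol g2`, with equality only if
`g1 = g2`. If `g2` is of this kind too and `L_g1 = L_g2` then `g1 = g2`.

Outline of the proof. (1) If a deck transformation `f` moves two points `c(s), c(s+R)` of a geodesic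
of the universal covering to within distance one of `c(t), c(t+R)` then its translation length is at
least `t - s - C` (four point condition). (2) Cut a long geodesic at the last returns to finitely
many cells of initial vectors modulo `G`; so its length with respect to `g2` is at least
`T - C'`. (3) Average over the geodesic flow (Liouville): the mean of the trace of `g2` with respect
to `g1` is at least `n`, with equality only for `g1 = g2`. (4) This mean, minus `n`, is twice the
derivative of the volume at `t = 0`. (5) Jacobi fields without conjugate points: the exponential map
is a diffeomorphism (Gauss lemma, lifting of paths), so geodesics of the universal covering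
minimise; for negative curvature the absence of conjugate points and the four point condition are
proved by comparison of Jacobi fields.
-/

set_option autoImplicit false

namespace Pool.Agent.Results.MP_25cd3b_gt.VolumeConvex

open MeasureTheory Set
open Pool.Agent.GM
open Pool.Agent.MLS (E ee)

/-- **Main theorem.** -/
theorem result (n : ℕ) (G : Type) [Group G] [MulAction G (E n)] (hG : Cocompact (E n) G)
    (g1 g2 : Frm (E n)) (r1 : Riem g1) (r2 : Riem g2) (i1 : Inv G g1) (i2 : Inv G g2)
    (D : Set (E n)) (hD : IsFD G D) (hV : ConvexOn ℝ (Icc 0 1) (svol ee g1 g2 D)) (h1 : Adm g1) :
    ((∀ a : G, L g1 a ≤ L g2 a) →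
      vol ee g1 D ≤ vol ee g2 D ∧ (vol ee g2 D = vol ee g1 D → g1 = g2)) ∧
    (Adm g2 → (∀ a : G, L g1 a = L g2 a) → g1 = g2) :=
  KB.thV n G hG g1 g2 r1 r2 i1 i2 D hD hV h1

end Pool.Agent.Results.MP_25cd3b_gt.VolumeConvex
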